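import Pool.Agent.Y140.AW.Stm

/-!
# Project AW: several embeddings
-/

set_option autoImplicit false

namespace Pool.Agent.Y236.AW

open Polynomial Pool.Agent.Y140.AW

section

variable {K N : Type} [Field K] [Field N] [Algebra K N]

instance tower_FS (F : IntermediateField K N) (S : Set N) :
    IsScalarTower K (IntermediateField.adjoin F S) N := IsScalarTower.of_algebraMap_eq fun _ => rfl

open scoped IntermediateField.algebraAdjoinAdjoin

/-- the elements of `N` which are algebraic over `F(S)` -/
noncomputable def FF (F : IntermediateField K N) (S : Set N) : IntermediateField K N :=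
  (algebraicClosure (IntermediateField.adjoin F S) N).restrictScalars K

theorem mem_FF {F : IntermediateField K N} {S : Set N} {z : N} :
    z ∈ FF F S ↔ IsAlgebraic (IntermediateField.adjoin F S) z := by
  unfold FF
  rw [IntermediateField.mem_restrictScalars, mem_algebraicClosure_iff]

theorem F_le {F : IntermediateField K N} {S : Set N} {z : N} (hz : z ∈ F) : z ∈ FF F S := by
  rw [mem_FF]
  have h : IsAlgebraic (IntermediateField.adjoin F S)
      (algebraMap (IntermediateField.adjoin F S) N
        (algebraMap F (IntermediateField.adjoin F S) ⟨z, hz⟩)) := isAlgebraic_algebraMap _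
  exact h

theorem trans_FF {F : IntermediateField K N} {S : Set N} {m : ℕ} {x : Fin (m + 1) → N}
    (hx : AlgebraicIndependent F x) (hS : S = x '' (Set.range Fin.castSucc)) :
    Transcendental (FF F S) (x (Fin.last m)) := by
  have h1 : Transcendental (Algebra.adjoin F S) (x (Fin.last m)) := by
    rw [hS]
    refine hx.transcendental_adjoin ?_
    rintro ⟨i, hi⟩
    exact absurd hi (Fin.castSucc_lt_last i).ne
  have h2 : Transcendental (IntermediateField.adjoin F S) (x (Fin.last m)) := by
    intro h
    exact h1 ((IsFractionRing.isAlgebraic_iff (Algebra.adjoin F S)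
      (IntermediateField.adjoin F S) N).2 h)
  exact h2.algebraicClosure

end

theorem mem_adj {K N : Type} [Field K] [Field N] [Algebra K N] {F : IntermediateField K N}
    {S : Set N} (g : RatFunc K →ₐ[K] N) (hg : g RatFunc.X ∈ S) (c : RatFunc K) :
    g c ∈ IntermediateField.adjoin F S := by
  have hp : ∀ q : K[X], g (algebraMap K[X] (RatFunc K) q) ∈ IntermediateField.adjoin F S := by
    intro q
    induction q using Polynomial.induction_on with
    | C a =>
      have e : g (algebraMap K[X] (RatFunc K) (C a)) = algebraMap K N a := by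
        rw [RatFunc.algebraMap_C]
        exact g.commutes a
      rw [e]
      have h1 : algebraMap K N a ∈ F := F.algebraMap_mem a
      exact (IntermediateField.adjoin F S).algebraMap_mem ⟨_, h1⟩
    | add p q hp hq =>
      rw [map_add, map_add]
      exact add_mem hp hq
    | monomial n a ih =>
      have e : g (algebraMap K[X] (RatFunc K) (C a * X ^ (n + 1))) =
          g (algebraMap K[X] (RatFunc K) (C a * X ^ n)) * g RatFunc.X := by
        rw [← map_mul, pow_succ, ← mul_assoc, map_mul (algebraMap K[X] (RatFunc K)),
          RatFunc.algebraMap_X]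
      rw [e]
      exact mul_mem ih (IntermediateField.subset_adjoin _ _ hg)
  rw [← RatFunc.num_div_denom c, map_div₀]
  exact div_mem (hp _) (hp _)

theorem emb_mem {K E N : Type} [Field K] [Field E] [Algebra (RatFunc K) E] [Algebra K E]
    [IsScalarTower K (RatFunc K) E] [FiniteDimensional (RatFunc K) E] [Field N] [Algebra K N]
    {F : IntermediateField K N} {S : Set N} (ψ : E →ₐ[K] N)
    (hS : ψ (algebraMap (RatFunc K) E RatFunc.X) ∈ S) (y : E) : ψ y ∈ FF F S := by
  rw [mem_FF]
  set g : RatFunc K →ₐ[K] N := ψ.comp (IsScalarTower.toAlgHom K (RatFunc K) E) with hg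
  have hgm : ∀ c, g.toRingHom c ∈ (IntermediateField.adjoin F S).toSubfield :=
    fun c => mem_adj g hS c
  let f : RatFunc K →+* IntermediateField.adjoin F S :=
    g.toRingHom.codRestrict (IntermediateField.adjoin F S).toSubfield hgm
  have halg : IsAlgebraic (RatFunc K) y := Algebra.IsAlgebraic.isAlgebraic y
  exact halg.ringHom_of_comp_eq f ψ.toRingHom f.injective (by ext c; rfl)

theorem t_tuple (h : St_step) : St_tuple := by
  intro K E N _ _ _ _ _ _ _ _ _ _ _ hreg htb F m
  induction m with
  | zero =>
    intro φ ψ _ _
    exact ⟨AlgEquiv.refl, fun j => j.elim0⟩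
  | succ m ih =>
    intro φ ψ hφ hψ
    obtain ⟨τ, hτ⟩ := ih (fun j => φ j.castSucc) (fun j => ψ j.castSucc)
      (hφ.comp _ (Fin.castSucc_injective m)) (hψ.comp _ (Fin.castSucc_injective m))
    set x : Fin (m + 1) → N := fun j => ψ j (algebraMap (RatFunc K) E RatFunc.X) with hx
    set x' : Fin (m + 1) → N := fun j => τ (φ j (algebraMap (RatFunc K) E RatFunc.X)) with hx'
    have hind' : AlgebraicIndependent F x' := by
      have := hφ.map' (f := τ.toAlgHom) τ.injective
      exact this
    set S : Set N := x '' (Set.range Fin.castSucc) with hS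
    have hS' : S = x' '' (Set.range Fin.castSucc) := by
      rw [hS]
      apply Set.image_congr
      rintro _ ⟨j, rfl⟩
      exact (hτ j _).symm
    have ht := trans_FF (F := F) (S := S) hψ hS
    have ht' := trans_FF (F := F) (S := S) hind' hS'
    set τK : N ≃ₐ[K] N := τ.restrictScalars K with hτK
    obtain ⟨τ', hτ'⟩ := h K E N hreg htb (FF F S) (τK.toAlgHom.comp (φ (Fin.last m)))
      (ψ (Fin.last m)) ht' ht
    refine ⟨AlgEquiv.ofRingEquiv (f := τ.toRingEquiv.trans τ'.toRingEquiv) ?_, ?_⟩
    · intro r
      have h1 : τ (algebraMap F N r) = algebraMap F N r := τ.commutes r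
      have h2 : τ' ((algebraMap F N r)) = algebraMap F N r := by
        have hm : (algebraMap F N r) ∈ FF F S := F_le r.2
        exact τ'.commutes ⟨_, hm⟩
      show τ' (τ (algebraMap F N r)) = algebraMap F N r
      rw [h1, h2]
    · intro j y
      show τ' (τ (φ j y)) = ψ j y
      induction j using Fin.lastCases with
      | last => exact hτ' y
      | cast j =>
        rw [hτ j y]
        have hm : ψ j.castSucc y ∈ FF F S := by
          refine emb_mem (ψ j.castSucc) ?_ y
          exact ⟨j.castSucc, ⟨j, rfl⟩, rfl⟩
        exact τ'.commutes ⟨_, hm⟩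

end Pool.Agent.Y236.AW
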